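import Mathlib

set_option autoImplicit false

/-!
# A locally compact metrizable right topological group without Haar measure

Let `F : ℝ/ℤ → ℚ` be a homomorphism onto `ℚ`. The group is `ℝ × (ℝ/ℤ)` with its usual topology
and the multiplication `(b, s) (b', s') = (2 ^ (-F s') * b + b', s + s')`.
-/

namespace Pool.Agent.Results.MP_d698c5_an.NoHaar

open MeasureTheory Set

theorem exists_hom : ∃ F : UnitAddCircle →+ ℚ, ∃ s : UnitAddCircle, F s = 1 := by
  have h1 : (Real.sqrt 2) ∉ (Submodule.span ℚ {(1 : ℝ)}) := by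
    intro h
    rw [Submodule.mem_span_singleton] at h
    obtain ⟨q, hq⟩ := h
    have h2 := irrational_sqrt_two
    apply h2
    refine ⟨q, ?_⟩
    rw [← hq, Rat.smul_def, mul_one]
  obtain ⟨f, hf1, hf2⟩ := Submodule.exists_le_ker_of_notMem h1
  have hf3 : f 1 = 0 := by
    have := hf2 (Submodule.mem_span_singleton_self (1 : ℝ))
    exact this
  refine ⟨QuotientAddGroup.lift (AddSubgroup.zmultiples (1 : ℝ)) f.toAddMonoidHom ?_,
    ((((f (Real.sqrt 2))⁻¹ • Real.sqrt 2 : ℝ)) : UnitAddCircle), ?_⟩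
  · intro x hx
    obtain ⟨n, rfl⟩ := AddSubgroup.mem_zmultiples_iff.1 hx
    rw [AddMonoidHom.mem_ker]
    show f (n • (1 : ℝ)) = 0
    rw [map_zsmul, hf3, smul_zero]
  · show f _ = 1
    rw [map_smul, smul_eq_mul, inv_mul_cancel₀ hf1]

/-- a homomorphism onto `ℚ` -/
noncomputable def F : UnitAddCircle →+ ℚ := exists_hom.choose

/-- an element with `F s₀ = 1` -/
theorem exists_s : ∃ s : UnitAddCircle, F s = 1 := exists_hom.choose_spec

/-- the factor `2 ^ (-F s)` -/
noncomputable def lm (s : UnitAddCircle) : ℝ := (2 : ℝ) ^ (-((F s : ℚ) : ℝ))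

theorem lm_pos (s : UnitAddCircle) : 0 < lm s := by unfold lm; positivity

theorem lm_add (s t : UnitAddCircle) : lm (s + t) = lm s * lm t := by
  unfold lm
  rw [map_add, ← Real.rpow_add two_pos]
  congr 1
  push_cast
  ring

theorem lm_zero : lm 0 = 1 := by
  unfold lm
  rw [map_zero]; simp

/-- the underlying space of the group -/
def RG : Type := ℝ × UnitAddCircle

instance : TopologicalSpace RG := inferInstanceAs (TopologicalSpace (ℝ × UnitAddCircle))
instance : LocallyCompactSpace RG := inferInstanceAs (LocallyCompactSpace (ℝ × UnitAddCircle))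
instance : TopologicalSpace.MetrizableSpace RG :=
  inferInstanceAs (TopologicalSpace.MetrizableSpace (ℝ × UnitAddCircle))

noncomputable instance : Group RG where
  mul x y := (lm y.2 * x.1 + y.1, x.2 + y.2)
  mul_assoc x y z := by
    refine Prod.ext ?_ (add_assoc _ _ _)
    show lm z.2 * (lm y.2 * x.1 + y.1) + z.1 = lm (y.2 + z.2) * x.1 + (lm z.2 * y.1 + z.1)
    rw [lm_add]; ring
  one := (0, 0)
  one_mul x := by
    refine Prod.ext ?_ (zero_add _)
    show lm x.2 * 0 + x.1 = x.1
    ring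
  mul_one x := by
    refine Prod.ext ?_ (add_zero _)
    show lm 0 * x.1 + 0 = x.1
    rw [lm_zero]; ring
  inv x := (-(lm (-x.2) * x.1), -x.2)
  inv_mul_cancel x := by
    refine Prod.ext ?_ (neg_add_cancel _)
    show lm x.2 * (-(lm (-x.2) * x.1)) + x.1 = 0
    have h : lm x.2 * lm (-x.2) = 1 := by rw [← lm_add, add_neg_cancel, lm_zero]
    linear_combination -x.1 * h

/-- the element with given coordinates -/
def mk (b : ℝ) (s : UnitAddCircle) : RG := (b, s)

theorem mul_def (x y : RG) : x * y = (lm y.2 * x.1 + y.1, x.2 + y.2) := rfl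

theorem continuous_mul_right (y : RG) : Continuous fun x : RG => x * y := by
  have h : Continuous fun x : ℝ × UnitAddCircle => (lm y.2 * x.1 + y.1, x.2 + y.2) := by fun_prop
  exact h

/-- the slab `[a, b) × ℝ/ℤ` -/
def slab (a b : ℝ) : Set RG := {x | a ≤ x.1 ∧ x.1 < b}

theorem slab_union : slab 0 2 = slab 0 1 ∪ slab 1 2 := by
  ext x
  simp only [slab, mem_union, mem_ofPred_eq]
  constructor
  · rintro ⟨h1, h2⟩
    rcases lt_or_ge x.1 1 with h | h
    · exact Or.inl ⟨h1, h⟩
    · exact Or.inr ⟨h, h2⟩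
  · rintro (⟨h1, h2⟩ | ⟨h1, h2⟩)
    · exact ⟨h1, by linarith⟩
    · exact ⟨by linarith, h2⟩

theorem slab_translate (a b c : ℝ) :
    (fun x : RG => x * mk c 0) '' slab a b = slab (a + c) (b + c) := by
  ext x
  constructor
  · rintro ⟨y, ⟨h1, h2⟩, rfl⟩
    show a + c ≤ lm 0 * y.1 + c ∧ lm 0 * y.1 + c < b + c
    rw [lm_zero]
    constructor <;> linarith
  · rintro ⟨h1, h2⟩
    refine ⟨(x.1 - c, x.2), ⟨?_, ?_⟩, ?_⟩
    · show a ≤ x.1 - c; linarith
    · show x.1 - c < b; linarith
    · refine Prod.ext ?_ (add_zero _)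
      show lm 0 * (x.1 - c) + c = x.1
      rw [lm_zero]; ring

theorem slab_scale (s : UnitAddCircle) (hs : F s = 1) :
    (fun x : RG => x * mk 0 (-s)) '' slab 0 1 = slab 0 2 := by
  have hl : lm (-s) = 2 := by
    unfold lm
    rw [map_neg, hs]; simp
  ext x
  constructor
  · rintro ⟨y, ⟨h1, h2⟩, rfl⟩
    show 0 ≤ lm (-s) * y.1 + 0 ∧ lm (-s) * y.1 + 0 < 2
    rw [hl]
    constructor <;> linarith
  · rintro ⟨h1, h2⟩
    refine ⟨(x.1 / 2, x.2 + s), ⟨?_, ?_⟩, ?_⟩
    · show 0 ≤ x.1 / 2; linarith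
    · show x.1 / 2 < 1; linarith
    · refine Prod.ext ?_ (add_neg_cancel_right _ _)
      show lm (-s) * (x.1 / 2) + 0 = x.1
      rw [hl]; ring

/-- There is a locally compact metrizable right topological group `G` such that the only right
invariant Borel measure on `G` which is finite on compact sets is zero. -/
theorem result : ∃ (G : Type) (_ : TopologicalSpace G) (_ : Group G),
    LocallyCompactSpace G ∧ TopologicalSpace.MetrizableSpace G ∧
    (∀ y : G, Continuous fun x : G => x * y) ∧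
    ∀ (_ : MeasurableSpace G) (_ : BorelSpace G) (μ : Measure G),
      IsFiniteMeasureOnCompacts μ →
      (∀ (g : G) (E : Set G), MeasurableSet E → μ ((fun x => x * g) '' E) = μ E) → μ = 0 := by
  refine ⟨RG, inferInstance, inferInstance, inferInstance, inferInstance, continuous_mul_right, ?_⟩
  intro _ _ μ hμ hinv
  have hmeas : ∀ a b : ℝ, MeasurableSet (slab a b) := by
    intro a b
    have hc : Continuous fun x : RG => x.1 := by
      have : Continuous fun x : ℝ × UnitAddCircle => x.1 := continuous_fst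
      exact this
    exact hc.measurable measurableSet_Ico
  have hfin : μ (slab 0 1) ≠ ⊤ := by
    have hK : IsCompact ((Icc (0 : ℝ) 1 ×ˢ (univ : Set UnitAddCircle)) : Set (ℝ × UnitAddCircle)) :=
      isCompact_Icc.prod isCompact_univ
    have hK' : @IsCompact RG _ (Icc (0 : ℝ) 1 ×ˢ (univ : Set UnitAddCircle)) := hK
    refine ne_top_of_le_ne_top hK'.measure_lt_top.ne (measure_mono ?_)
    rintro x ⟨h1, h2⟩
    exact ⟨⟨h1, h2.le⟩, mem_univ _⟩
  have htr : ∀ c : ℝ, μ (slab (0 + c) (1 + c)) = μ (slab 0 1) := by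
    intro c
    rw [← slab_translate]
    exact hinv _ _ (hmeas 0 1)
  obtain ⟨s, hs⟩ := exists_s
  have h2 : μ (slab 0 2) = μ (slab 0 1) := by
    rw [← slab_scale s hs]
    exact hinv _ _ (hmeas 0 1)
  have h3 : μ (slab 0 2) = μ (slab 0 1) + μ (slab 0 1) := by
    rw [slab_union, measure_union ?_ (hmeas 1 2)]
    · congr 1
      have := htr 1
      norm_num at this
      exact this
    · rw [Set.disjoint_left]
      rintro x ⟨_, h1⟩ ⟨h2, _⟩
      linarith
  have h4 : μ (slab 0 1) = 0 := by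
    rw [h2] at h3
    by_contra hne
    have h5 := ENNReal.lt_add_right hfin hne
    rw [← h3] at h5
    exact lt_irrefl _ h5
  rw [← Measure.measure_univ_eq_zero]
  have h5 : (univ : Set RG) ⊆ ⋃ n : ℤ, slab (0 + n) (1 + n) := by
    intro x _
    rw [mem_iUnion]
    refine ⟨⌊x.1⌋, ?_, ?_⟩
    · rw [zero_add]; exact Int.floor_le _
    · rw [add_comm]; exact Int.lt_floor_add_one _
  refine le_antisymm ((measure_mono h5).trans ?_) bot_le
  refine (measure_iUnion_le _).trans ?_
  simp only [htr, h4, tsum_zero, le_refl]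

end Pool.Agent.Results.MP_d698c5_an.NoHaar
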